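import Pool.Agent.TD47.Gen
import Pool.Agent.TD47.FanStar

/-!
# MP_80b5de_an: desingularization of quasi-psh functions with toric singularities on threefolds

Let `X` be the compact toric threefold of a smooth complete fan `F`. For all `C ≥ 0` and `ε > 0`
there is a smooth complete fan `F'`, obtained by finitely many star subdivisions at
two-dimensional cones, that is, a finite composition `π : X' → X` of blow-ups along smooth curves,
such that every quasi-psh function `φ` on `X` whose singularities are toric (that is, `φ - ψ` is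
bounded for a torus-invariant quasi-psh function `ψ` with constant `C`) satisfies
`π^*(ω + dd^c φ) = [D] + R_ε`, where `D` is a simple normal crossing divisor with nonnegative
coefficients, `R_ε` is a positive current whenever `ω + dd^c φ ≥ 0`, and all Lelong numbers of
`R_ε` are `< ε`. In particular this holds, with the same `π`, for all torus-invariant `φ = ψ`.

The current `R_ε` is `π^* ω + dd^c R` with the functions `R` below, and `D` is the sum of the
divisors `c v • E_v`, where `v` runs over the rays of `F'`. Positivity is stated through local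
potentials: if `q` is continuous on an open set `U` and `φ ∘ π + q` is psh on `U` outside the
boundary divisor then `R + q` is psh on `U`.

All definitions used in the statement are in `Pool.Agent.TD47.Defs`.
-/

open scoped Topology
open Filter

namespace Pool.Agent.Results.MP_80b5de_an.ToricThreefold

open Pool.Agent.TD47

/-- **Desingularization of quasi-psh functions with toric singularities on toric threefolds.** -/
theorem result : ∀ F : Finset Cone3, IsFan F → ∀ C : ℝ, 0 ≤ C → ∀ ε : ℝ, 0 < ε →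
    ∃ F' : Finset Cone3, Reach F F' ∧ IsFan F' ∧
    ∀ ψ : (Fin 3 → ℂ) → EReal, IsQpsh F C ψ → IsInv ψ →
    ∀ (C' : ℝ) (φ : (Fin 3 → ℂ) → EReal), IsQpsh F C' φ →
    (∃ M : ℝ, ∀ t ∈ torus, φ t ≤ ψ t + (M : EReal) ∧ ψ t ≤ φ t + (M : EReal)) →
    ∃ c : (Fin 3 → ℤ) → ℝ, (∀ v, 0 ≤ c v) ∧ ∀ σ ∈ F', ∃ (r : ℝ) (R : (Fin 3 → ℂ) → EReal), 1 < r ∧
      (∃ n : Fin 3 → Fin 3 → ℕ,
        IsPshOn (pd r) (fun y => R y + ((C' * ∑ k, ‖∏ j, y j ^ n j k‖ ^ 2 : ℝ) : EReal))) ∧
      (∀ y ∈ pd r, y ∈ torus →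
        φ (mon σ y) = R y + ((∑ j, c (σ j) * Real.log ‖y j‖ : ℝ) : EReal)) ∧
      (∀ U ⊆ pd r, IsOpen U → ∀ q : (Fin 3 → ℂ) → ℝ, ContinuousOn q U →
        IsPshOn (U ∩ torus) (fun y => φ (mon σ y) + ((q y : ℝ) : EReal)) →
        IsPshOn U (fun y => R y + ((q y : ℝ) : EReal))) ∧
      ∀ y ∈ pd r, lelong R y < ε := by
  intro F hF C hC ε hε
  obtain ⟨Λ, hΛ0, hΛ⟩ : ∃ Λ : ℝ, 0 ≤ Λ ∧ ∀ σ0 ∈ F, nr (lam σ0) ≤ Λ :=
    ⟨∑ σ0 ∈ F, nr (lam σ0), Finset.sum_nonneg fun i _ => nr_nonneg _,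
      fun σ0 h => Finset.single_le_sum
      (f := fun σ0 => nr (lam σ0)) (fun i _ => nr_nonneg _) h⟩
  have hL0 := lipK_nonneg F hC
  set L := lipK F C with hLdef
  have hLΛ : 0 ≤ 36 * L * Λ := mul_nonneg (by linarith) hΛ0
  set δ := ε / (36 * L * Λ + 1) with hδdef
  have hδ : 0 < δ := div_pos hε (by linarith)
  have hb : 36 * L * Λ * δ < ε := by
    rw [hδdef, mul_div_assoc', div_lt_iff₀ (by linarith)]
    nlinarith
  have hb0 : 0 ≤ 36 * L * Λ * δ := mul_nonneg hLΛ hδ.le
  obtain ⟨F', hR, hfine⟩ := fan_fine hF hδ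
  refine ⟨F', hR, hF.reach hR, ?_⟩
  intro ψ hψ hinv C' φ hφ hφψ
  obtain ⟨M, hM⟩ := hφψ
  obtain ⟨f, hf, hψf⟩ := (hψ.toL hinv).real hF
  obtain ⟨h, hh⟩ := hf.exists_rec hF hC
  refine ⟨fun v => h (toR v), fun v => hh.nonneg hF hC hf _, ?_⟩
  intro σ hσ
  obtain ⟨hdet, σ0, hσ0, n, hn, hsm, hed⟩ := hfine σ hσ
  have hconv := Gf_convex (h := h) (σ := σ) (n := n) hF hC hf hσ0
  have hmono := Gf_mono hF hC hf hh hσ0 hn
  set G := Gf F C f h σ0 σ n with hG
  have hS : IsPsh (hat G) := psh_toric G hconv hmono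
  -- the invariant function in the chart
  have hrel : ∀ y ∈ pd (rad n), y ∈ torus → ψ (mon σ y) = hat G y +
      ((-potn C n y : ℝ) : EReal) + ((∑ j, h (toR (σ j)) * Real.log ‖y j‖ : ℝ) : EReal) := by
    intro y hy hy0
    have h1 : hat G y = ((G (logc y) : ℝ) : EReal) := iInf_toric G hmono y hy0
    rw [h1, hinv.eq_lg σ hy0, hψf, ← EReal.coe_add, ← EReal.coe_add, EReal.coe_eq_coe_iff, hG, Gf,
      Phi_eq (fun k => nT_le_half n hy hy0 k), comb_nT hn, potn]
    have e1 : ∑ k, Real.exp (2 * nT n (logc y) k) = ∑ k, ‖∏ j, y j ^ n j k‖ ^ 2 :=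
      Finset.sum_congr rfl fun k _ => exp_nT n hy0 k
    have e2 : ∑ j, h (toR (σ j)) * logc y j = ∑ j, h (toR (σ j)) * Real.log ‖y j‖ := rfl
    rw [e1, e2]
    ring
  -- the remainder of `φ` on the torus
  obtain ⟨u, hu, hu2⟩ := hφ.2 σ0 hσ0
  have hφu : ∀ y ∈ pd (rad n), y ∈ torus →
      φ (mon σ y) + ((potn C' n y : ℝ) : EReal) = u (mp n y) := by
    intro y hy hy0
    have h1 := hu2 (mp n y) (mp_mem_pd hy) (mp_torus n hy0)
    rw [mon_mp hn hy0] at h1
    exact h1
  set lc : (Fin 3 → ℂ) → ℝ := fun y => ∑ j, h (toR (σ j)) * Real.log ‖y j‖ with hlc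
  set W0 : (Fin 3 → ℂ) → EReal := fun y => φ (mon σ y) + ((-lc y : ℝ) : EReal) with hW0
  set T : Set (Fin 3 → ℂ) := {z | ∀ j, z j ≠ 0} with hT
  set R : (Fin 3 → ℂ) → EReal := fun y => limsup W0 (𝓝[T] y) with hRdef
  have hlcc : ContinuousOn lc T := by
    refine continuousOn_finsetSum _ fun j _ => ContinuousOn.mul continuousOn_const ?_
    refine ContinuousOn.log (by fun_prop) fun y hy => ?_
    exact norm_ne_zero_iff.mpr (hy j)
  have hDo : IsOpen (pd (rad n) ∩ T) := (pd_open _).inter torus_open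
  have hW0usc : UpperSemicontinuousOn W0 (pd (rad n) ∩ T) := by
    have h1 : UpperSemicontinuousOn (fun y => u (mp n y) + ((-potn C' n y - lc y : ℝ) : EReal))
        (pd (rad n) ∩ T) := by
      refine ext_usc_add (hu.comp_mp.1.mono Set.inter_subset_left) ?_
      exact ((potn_continuous C' n).neg.continuousOn).sub (hlcc.mono Set.inter_subset_right)
    intro y hy a ha
    have e : ∀ z ∈ pd (rad n) ∩ T, W0 z = u (mp n z) + ((-potn C' n z - lc z : ℝ) : EReal) := by
      intro z hz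
      have e1 : potn C' n z + (-potn C' n z - lc z) = -lc z := by ring
      rw [← hφu z hz.1 hz.2, add_assoc, ← EReal.coe_add, e1]
    rw [e y hy] at ha
    filter_upwards [h1 y hy a ha, self_mem_nhdsWithin] with z hz hzD
    rwa [← e z hzD] at hz
  have hRT : ∀ y ∈ pd (rad n), y ∈ T → R y = W0 y := by
    intro y hy hy0
    rw [hRdef]
    simp only
    rw [torus_open.nhdsWithin_eq hy0]
    exact limsup_eq_of_usc hDo hW0usc ⟨hy, hy0⟩
  have hrelφ : ∀ y ∈ pd (rad n), y ∈ torus →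
      φ (mon σ y) = R y + ((∑ j, h (toR (σ j)) * Real.log ‖y j‖ : ℝ) : EReal) := by
    intro y hy hy0
    rw [hRT y hy hy0, hW0, add_assoc, ← EReal.coe_add]
    have : -lc y + ∑ j, h (toR (σ j)) * Real.log ‖y j‖ = 0 := by rw [hlc]; ring
    rw [this, EReal.coe_zero, add_zero]
  have hup : ∀ y ∈ pd (rad n), y ∈ T → W0 y ≤ hat G y + ((M - potn C n y : ℝ) : EReal) := by
    intro y hy hy0
    have h1 := (hM _ (mon_mem σ hy0)).1
    rw [hrel y hy hy0] at h1
    have h2 := add_le_add h1 (le_refl ((-lc y : ℝ) : EReal))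
    refine h2.trans (le_of_eq ?_)
    rw [add_assoc, add_assoc, add_assoc, ← EReal.coe_add, ← EReal.coe_add, ← EReal.coe_add]
    congr 2
    rw [hlc]
    ring
  have hlow : ∀ y ∈ pd (rad n), y ∈ T → hat G y + ((-(potn C n y + M) : ℝ) : EReal) ≤ W0 y := by
    intro y hy hy0
    have h1 := (hM _ (mon_mem σ hy0)).2
    rw [hrel y hy hy0] at h1
    have h2 := add_le_add h1 (le_refl ((-M - lc y : ℝ) : EReal))
    refine le_trans (le_of_eq ?_) (h2.trans (le_of_eq ?_))
    · rw [add_assoc, add_assoc, ← EReal.coe_add, ← EReal.coe_add]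
      congr 2
      rw [hlc]
      ring
    · rw [hW0, add_assoc, ← EReal.coe_add]
      congr 2
      ring
  have hbd : ∀ y ∈ pd (rad n), ∃ B : ℝ, ∀ᶠ z in 𝓝[T] y, R z ≤ (B : EReal) := by
    intro y hy
    have hlt : hat G y < ⊤ := lt_top_iff_ne_top.mpr (hS.2.1 y)
    obtain ⟨B1, hB1, -⟩ := EReal.lt_iff_exists_real_btwn.mp hlt
    have h1 : ∀ᶠ z in 𝓝[T] y, hat G z < (B1 : EReal) :=
      mem_nhdsWithin_of_mem_nhds (hS.1 y _ hB1)
    have h2 : ∀ᶠ z in 𝓝[T] y, M - potn C n z < M - potn C n y + 1 :=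
      mem_nhdsWithin_of_mem_nhds (((continuous_const.sub (potn_continuous C n)).tendsto y).eventually
        (eventually_lt_nhds (b := M - potn C n y + 1) (lt_add_one _)))
    have h3 : ∀ᶠ z in 𝓝[T] y, z ∈ pd (rad n) :=
      mem_nhdsWithin_of_mem_nhds ((pd_open _).mem_nhds hy)
    refine ⟨B1 + (M - potn C n y + 1), ?_⟩
    filter_upwards [h1, h2, h3, self_mem_nhdsWithin] with z hz1 hz2 hz3 hzT
    rw [hRT z hz3 hzT]
    refine (hup z hz3 hzT).trans ?_
    rw [EReal.coe_add]
    exact add_le_add hz1.le (EReal.coe_le_coe_iff.mpr hz2.le)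
  have hlim : ∀ y ∈ pd (rad n), R y = limsup R (𝓝[T] y) := by
    intro y hy
    rw [hRdef]
    refine limsup_congr ?_
    have h3 : ∀ᶠ z in 𝓝[T] y, z ∈ pd (rad n) :=
      mem_nhdsWithin_of_mem_nhds ((pd_open _).mem_nhds hy)
    filter_upwards [h3, self_mem_nhdsWithin] with z hz3 hzT
    exact (hRT z hz3 hzT).symm
  have hpos : ∀ U ⊆ pd (rad n), IsOpen U → ∀ q : (Fin 3 → ℂ) → ℝ, ContinuousOn q U →
        IsPshOn (U ∩ torus) (fun y => φ (mon σ y) + ((q y : ℝ) : EReal)) →
        IsPshOn U (fun y => R y + ((q y : ℝ) : EReal)) := by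
    intro U hU hUo q hq hp
    refine psh_extend_gen U hUo (fun y => φ (mon σ y) + ((q y : ℝ) : EReal)) R q hq
      (fun j => h (toR (σ j))) hp ?_ (fun y hy => hbd y (hU hy)) (fun y hy => hlim y (hU hy))
    intro y hy hy0
    rw [hrelφ y (hU hy) hy0, add_assoc, ← EReal.coe_add]
    congr 2
    ring
  refine ⟨rad n, R, one_lt_rad n, ⟨n, ?_⟩, hrelφ, hpos, ?_⟩
  · refine hpos (pd (rad n)) subset_rfl (pd_open _) (potn C' n)
      (potn_continuous C' n).continuousOn ?_
    refine (hu.comp_mp.mono Set.inter_subset_left).congr ?_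
    intro z hz
    exact (hφu z hz.1 hz.2).symm
  · intro y hy
    refine lt_of_le_of_lt (lelong_le (R := R) (a := fun z => potn C n z + M) hmono
      ((potn_continuous C n).add continuous_const) hb0 ?_ y ?_) (EReal.coe_lt_coe_iff.mpr hb)
    · intro χ x hχ
      refine ⟨_, ?_, Gf_rec hF hC hf hh hn (fun j => ?_) x⟩
      · have hpos : ∀ j, 0 < dt (lam σ0) (toR (σ j)) := by
          intro j
          rw [hn j, dt_lam_nc (hF.abs_deR hσ0)]
          have := hsm j
          exact_mod_cast this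
        have hed' : ∀ i j, i ≠ j → ed (toR (σ i)) (toR (σ j)) ≤
            δ * (dt (lam σ0) (toR (σ i)) + dt (lam σ0) (toR (σ j))) := by
          intro i j hij
          have e1 : dt (lam σ0) (toR (σ i)) = (sm (n i) : ℝ) := by
            rw [hn i, dt_lam_nc (hF.abs_deR hσ0)]
          have e2 : dt (lam σ0) (toR (σ j)) = (sm (n j) : ℝ) := by
            rw [hn j, dt_lam_nc (hF.abs_deR hσ0)]
          rw [e1, e2]
          exact hed i j hij
        have h1 := K_all hL0 (fun u v => hh.lip hF hC hf u v) (fun s v hs => hh.smul hs v)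
          (a := fun j => toR (σ j)) hpos hed' hχ
        rw [← comb_sum] at h1
        have h2 : 36 * L * nr (lam σ0) * δ ≤ 36 * L * Λ * δ :=
          mul_le_mul_of_nonneg_right (mul_le_mul_of_nonneg_left (hΛ σ0 hσ0) (by linarith)) hδ.le
        linarith
      · rcases hχ j with h0 | h0 <;> rw [h0]
        norm_num
    · have h3 : ∀ᶠ z in 𝓝[T] y, z ∈ pd (rad n) :=
        mem_nhdsWithin_of_mem_nhds ((pd_open _).mem_nhds hy)
      filter_upwards [h3, self_mem_nhdsWithin] with z hz3 hzT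
      rw [hRT z hz3 hzT]
      exact hlow z hz3 hzT

end Pool.Agent.Results.MP_80b5de_an.ToricThreefold
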